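import Pool.Agent.Q195.PN3

set_option autoImplicit false

open Pool.Agent.Q195.PN

namespace Pool.Agent.Results.MP_c4013e_an.NoPNormableSubspace

/-- For every `0 < q < 1` there is a quasi-Banach space, `q`-normed, with a bidemocratic basis,
such that for no `p > q` an infinite-dimensional subspace has an equivalent `p`-norm. -/
theorem result : ∀ (𝕜 : Type) [RCLike 𝕜] (q : ℝ), 0 < q → q < 1 →
    ∃ (X : Type) (_ : AddCommGroup X) (_ : Module 𝕜 X) (N : X → ℝ) (x : ℕ → X)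
      (xs : ℕ → X →ₗ[𝕜] 𝕜), IsQuasiBanach 𝕜 N ∧ (∀ y z, N (y + z) ^ q ≤ N y ^ q + N z ^ q) ∧
      IsBasis N x xs ∧ IsBidemocratic N x xs ∧ ¬ FiniteDimensional 𝕜 X ∧
      ∀ (Y : Submodule 𝕜 X), ¬ FiniteDimensional 𝕜 Y → ∀ p : ℝ, q < p → ¬ HasPNorm p N Y := by
  intro 𝕜 _ q hq0 hq
  exact ⟨Xs 𝕜 q hq0 hq, inferInstance, inferInstance, NN, ev, cf, quasiBanach, NN_add, basis,
    bidem, infdim, fun Y hY p hp => no_pnorm Y hY p hp⟩

end Pool.Agent.Results.MP_c4013e_an.NoPNormableSubspace
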